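import Mathlib

open MeasureTheory Set Filter Topology

set_option autoImplicit false

namespace Pool.Agent.Y767.PB

/-- a primitive of `sin ^ m` -/
noncomputable def H (m : ℕ) (u : ℝ) : ℝ := ∫ v in (0:ℝ)..u, Real.sin v ^ m

lemma H_deriv (m : ℕ) (u : ℝ) : HasDerivAt (H m) (Real.sin u ^ m) u :=
  intervalIntegral.integral_hasDerivAt_right ((Real.continuous_sin.pow m).intervalIntegrable _ _)
    ((Real.continuous_sin.pow m).stronglyMeasurableAtFilter _ _) (Real.continuous_sin.pow m).continuousAt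

/-- the squared distance -/
noncomputable def D (s θ : ℝ) : ℝ := 1 + s ^ 2 - 2 * s * Real.cos θ

lemma D_pos {s : ℝ} (h0 : 0 ≤ s) (h1 : s < 1) (θ : ℝ) : 0 < D s θ := by
  unfold D
  nlinarith [Real.cos_le_one θ, mul_nonneg h0 (sub_nonneg.2 (Real.cos_le_one θ)), mul_pos (sub_pos.2 h1) (sub_pos.2 h1)]

lemma cos_pos' {s : ℝ} (h0 : 0 ≤ s) (h1 : s < 1) (θ : ℝ) : 0 < 1 - s * Real.cos θ := by
  nlinarith [Real.cos_le_one θ, mul_nonneg h0 (sub_nonneg.2 (Real.cos_le_one θ))]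

/-- the angle at the pole -/
noncomputable def al (s θ : ℝ) : ℝ := Real.arctan (s * Real.sin θ / (1 - s * Real.cos θ))

lemma one_add_sq {s : ℝ} (h0 : 0 ≤ s) (h1 : s < 1) (θ : ℝ) :
    1 + (s * Real.sin θ / (1 - s * Real.cos θ)) ^ 2 = D s θ / (1 - s * Real.cos θ) ^ 2 := by
  have h := (cos_pos' h0 h1 θ).ne'
  have h2 : (s * Real.sin θ) ^ 2 + (1 - s * Real.cos θ) ^ 2 = D s θ := by
    unfold D
    nlinarith [Real.sin_sq_add_cos_sq θ]
  rw [← h2]
  field_simp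
  ring

lemma sqrt_one_add {s : ℝ} (h0 : 0 ≤ s) (h1 : s < 1) (θ : ℝ) :
    √(1 + (s * Real.sin θ / (1 - s * Real.cos θ)) ^ 2) = √(D s θ) / (1 - s * Real.cos θ) := by
  rw [one_add_sq h0 h1, Real.sqrt_div (D_pos h0 h1 θ).le, Real.sqrt_sq (cos_pos' h0 h1 θ).le]

lemma sin_al {s : ℝ} (h0 : 0 ≤ s) (h1 : s < 1) (θ : ℝ) :
    Real.sin (al s θ) = s * Real.sin θ / √(D s θ) := by
  have h := (cos_pos' h0 h1 θ).ne'
  have h2 := (Real.sqrt_pos.2 (D_pos h0 h1 θ)).ne'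
  unfold al
  rw [Real.sin_arctan, sqrt_one_add h0 h1]
  field_simp

lemma cos_al {s : ℝ} (h0 : 0 ≤ s) (h1 : s < 1) (θ : ℝ) :
    Real.cos (al s θ) = (1 - s * Real.cos θ) / √(D s θ) := by
  have h := (cos_pos' h0 h1 θ).ne'
  have h2 := (Real.sqrt_pos.2 (D_pos h0 h1 θ)).ne'
  unfold al
  rw [Real.cos_arctan, sqrt_one_add h0 h1]
  field_simp

lemma sin_be {s : ℝ} (h0 : 0 ≤ s) (h1 : s < 1) (θ : ℝ) :
    Real.sin (Real.pi - θ - al s θ) = Real.sin θ / √(D s θ) := by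
  have h2 := (Real.sqrt_pos.2 (D_pos h0 h1 θ)).ne'
  rw [show Real.pi - θ - al s θ = Real.pi - (θ + al s θ) by ring, Real.sin_pi_sub, Real.sin_add,
    sin_al h0 h1, cos_al h0 h1]
  field_simp
  ring

lemma al_diff {s : ℝ} (h0 : 0 ≤ s) (h1 : s < 1) (θ : ℝ) : DifferentiableAt ℝ (al s) θ := by
  unfold al
  apply DifferentiableAt.arctan
  apply DifferentiableAt.div (by fun_prop) (by fun_prop)
  exact (cos_pos' h0 h1 θ).ne'

/-- the angular integral -/
theorem ang_int (m : ℕ) {s : ℝ} (h0 : 0 < s) (h1 : s < 1) :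
    ∫ θ in (0:ℝ)..Real.pi, (Real.sin θ / √(D s θ)) ^ m = ∫ θ in (0:ℝ)..Real.pi, Real.sin θ ^ m := by
  have hd : ∀ θ ∈ uIcc 0 Real.pi, HasDerivAt
      (fun θ => -(H m (Real.pi - θ - al s θ)) - (s ^ m)⁻¹ * H m (al s θ))
      ((Real.sin θ / √(D s θ)) ^ m) θ := by
    intro θ _
    obtain ⟨a', ha⟩ : ∃ a', HasDerivAt (al s) a' θ := ⟨_, (al_diff h0.le h1 θ).hasDerivAt⟩
    have hb : HasDerivAt (fun θ => Real.pi - θ - al s θ) (-1 - a') θ :=
      ((hasDerivAt_id θ).const_sub Real.pi).sub ha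
    have h2 := ((H_deriv m (Real.pi - θ - al s θ)).comp θ hb).neg
    have h3 := ((H_deriv m (al s θ)).comp θ ha).const_mul (s ^ m)⁻¹
    refine (h2.sub h3).congr_deriv ?_
    rw [sin_be h0.le h1, sin_al h0.le h1, mul_div_assoc, mul_pow]
    have hs : s ^ m ≠ 0 := by positivity
    field_simp
    ring
  have hcont : Continuous fun θ => (Real.sin θ / √(D s θ)) ^ m := by
    apply Continuous.pow
    apply Continuous.div Real.continuous_sin
    · unfold D; fun_prop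
    · intro θ
      exact (Real.sqrt_pos.2 (D_pos h0.le h1 θ)).ne'
  rw [intervalIntegral.integral_eq_sub_of_hasDerivAt hd (hcont.intervalIntegrable _ _)]
  have e1 : al s Real.pi = 0 := by unfold al; simp
  have e2 : al s 0 = 0 := by unfold al; simp
  have e3 : H m 0 = 0 := by unfold H; simp
  simp only [e1, e2, sub_self, sub_zero, e3]
  unfold H
  ring

/-- with the exponents of the Newtonian kernel, all `0 ≤ s < 1` -/
theorem ang (m : ℕ) {s : ℝ} (h0 : 0 ≤ s) (h1 : s < 1) :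
    ∫ θ in (0:ℝ)..Real.pi, Real.sin θ ^ m * (1 + s ^ 2 - 2 * s * Real.cos θ) ^ (-(m : ℝ) / 2) =
      ∫ θ in (0:ℝ)..Real.pi, Real.sin θ ^ m := by
  have hk : ∀ θ : ℝ, (1 + s ^ 2 - 2 * s * Real.cos θ) ^ (-(m : ℝ) / 2) = (√(D s θ) ^ m)⁻¹ := by
    intro θ
    have hD := D_pos h0 h1 θ
    change (D s θ) ^ (-(m : ℝ) / 2) = _
    rw [Real.sqrt_eq_rpow, ← Real.rpow_natCast, ← Real.rpow_mul hD.le, ← Real.rpow_neg hD.le]
    congr 1
    ring
  rcases h0.eq_or_lt with h | h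
  · subst h
    apply intervalIntegral.integral_congr
    intro θ _
    simp
  · rw [← ang_int m h h1]
    apply intervalIntegral.integral_congr
    intro θ _
    simp only
    rw [hk, div_pow, div_eq_mul_inv]

end Pool.Agent.Y767.PB
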