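import Pool.Agent.Y767.PB.Zon
import Pool.Agent.Y767.PB.Ang

open MeasureTheory Metric Set Filter Topology
open scoped ENNReal

set_option autoImplicit false

namespace Pool.Agent.Y767.PB

/-- the angular constant -/
noncomputable def Jm (k : ℕ) : ℝ := ∫ θ in (0:ℝ)..Real.pi, Real.sin θ ^ (k + 1)

lemma Jm_pos (k : ℕ) : 0 < Jm k := by
  unfold Jm
  apply intervalIntegral.intervalIntegral_pos_of_pos_on
  · exact (Real.continuous_sin.pow _).intervalIntegrable _ _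
  · intro θ hθ
    exact pow_pos (Real.sin_pos_of_mem_Ioo hθ) _
  · exact Real.pi_pos

/-- the total mass of the unit sphere -/
noncomputable def SS (k : ℕ) : ℝ≥0∞ := ck k * ENNReal.ofReal (Jm k)

/-- the Newtonian kernel in terms of the inner product -/
lemma kernel {k : ℕ} (x y : E (k + 3)) : ‖x - y‖ ^ (2 - ((k + 3 : ℕ) : ℝ)) =
    (‖x‖ ^ 2 + ‖y‖ ^ 2 - 2 * inner ℝ x y) ^ (-((k + 1 : ℕ) : ℝ) / 2) := by
  have h : ‖x‖ ^ 2 + ‖y‖ ^ 2 - 2 * inner ℝ x y = ‖x - y‖ ^ 2 := by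
    rw [norm_sub_sq_real]; ring
  rw [h, ← Real.rpow_natCast, ← Real.rpow_mul (norm_nonneg _)]
  congr 1
  push_cast
  ring

lemma lint_real {f : ℝ → ℝ} (hf : ContinuousOn f (Icc 0 Real.pi))
    (h0 : ∀ θ ∈ Ioo 0 Real.pi, 0 ≤ f θ) :
    ∫⁻ θ in Ioo 0 Real.pi, ENNReal.ofReal (f θ) =
      ENNReal.ofReal (∫ θ in (0:ℝ)..Real.pi, f θ) := by
  rw [intervalIntegral.integral_of_le Real.pi_pos.le, integral_Ioc_eq_integral_Ioo,
    ofReal_integral_eq_lintegral_ofReal]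
  · exact hf.integrableOn_Icc.mono_set Ioo_subset_Icc_self
  · filter_upwards [ae_restrict_mem measurableSet_Ioo] with θ hθ
    exact h0 θ hθ

lemma ang_l (k : ℕ) {t q : ℝ} (ht : 0 ≤ t) (hq : 0 < q) (hne : t ≠ q) :
    ∫⁻ θ in Ioo 0 Real.pi, ENNReal.ofReal (Real.sin θ ^ (k + 1)) *
      ENNReal.ofReal ((t ^ 2 + q ^ 2 - 2 * (t * (q * Real.cos θ))) ^
        (-((k + 1 : ℕ) : ℝ) / 2)) =
    ENNReal.ofReal ((max t q ^ (k + 1))⁻¹) * ENNReal.ofReal (Jm k) := by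
  set M := max t q with hMdef
  have hM : 0 < M := lt_max_of_lt_right hq
  set s := min t q / M with hsdef
  have hs0 : 0 ≤ s := div_nonneg (le_min ht hq.le) hM.le
  have hs1 : s < 1 := by rw [hsdef, div_lt_one hM]; exact min_lt_max.2 hne
  have h1 : s * M = min t q := div_mul_cancel₀ _ hM.ne'
  have h2 : min t q * M = t * q := min_mul_max t q
  have h3 : min t q ^ 2 + M ^ 2 = t ^ 2 + q ^ 2 := by
    rcases le_total t q with h | h
    · rw [hMdef, min_eq_left h, max_eq_right h]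
    · rw [hMdef, min_eq_right h, max_eq_left h]; ring
  have hid : ∀ c : ℝ, t ^ 2 + q ^ 2 - 2 * (t * (q * c)) = M ^ 2 * (1 + s ^ 2 - 2 * s * c) := by
    intro c
    have e : M ^ 2 * (1 + s ^ 2 - 2 * s * c) = M ^ 2 + (s * M) ^ 2 - 2 * ((s * M) * M) * c := by
      ring
    rw [e, h1, h2, ← h3]
    ring
  have hpow : (M ^ 2) ^ (-((k + 1 : ℕ) : ℝ) / 2) = (M ^ (k + 1))⁻¹ := by
    rw [← Real.rpow_natCast M 2, ← Real.rpow_mul hM.le, ← Real.rpow_natCast M (k + 1),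
      ← Real.rpow_neg hM.le]
    congr 1
    push_cast
    ring
  have hD : ∀ θ : ℝ, 0 < 1 + s ^ 2 - 2 * s * Real.cos θ := fun θ => D_pos hs0 hs1 θ
  have h4 : ∀ θ ∈ Ioo 0 Real.pi, ENNReal.ofReal (Real.sin θ ^ (k + 1)) *
      ENNReal.ofReal ((t ^ 2 + q ^ 2 - 2 * (t * (q * Real.cos θ))) ^
        (-((k + 1 : ℕ) : ℝ) / 2)) = ENNReal.ofReal ((M ^ (k + 1))⁻¹ * (Real.sin θ ^ (k + 1) *
        (1 + s ^ 2 - 2 * s * Real.cos θ) ^ (-((k + 1 : ℕ) : ℝ) / 2))) := by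
    intro θ hθ
    rw [← ENNReal.ofReal_mul (pow_nonneg (Real.sin_pos_of_mem_Ioo hθ).le _), hid,
      Real.mul_rpow (sq_nonneg M) (hD θ).le, hpow]
    congr 1
    ring
  rw [setLIntegral_congr_fun measurableSet_Ioo h4, lint_real, intervalIntegral.integral_const_mul,
    ang (k + 1) hs0 hs1, ENNReal.ofReal_mul (by positivity)]
  · rfl
  · apply Continuous.continuousOn
    apply continuous_const.mul
    apply (Real.continuous_sin.pow _).mul
    apply Continuous.rpow_const (by fun_prop)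
    intro θ
    exact Or.inl (hD θ).ne'
  · intro θ hθ
    have := pow_nonneg (Real.sin_pos_of_mem_Ioo hθ).le (k + 1)
    have := Real.rpow_nonneg (hD θ).le (-((k + 1 : ℕ) : ℝ) / 2)
    positivity

lemma sin_l (k : ℕ) : ∫⁻ θ in Ioo 0 Real.pi, ENNReal.ofReal (Real.sin θ ^ (k + 1)) =
    ENNReal.ofReal (Jm k) :=
  lint_real (by fun_prop) fun θ hθ => pow_nonneg (Real.sin_pos_of_mem_Ioo hθ).le _

/-- the potential of a radial density -/
theorem pot_w (k : ℕ) (x : E (k + 3)) {w : ℝ → ℝ≥0∞} (hw : Measurable w) :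
    ∫⁻ y : E (k + 3), ENNReal.ofReal (‖x - y‖ ^ (2 - ((k + 3 : ℕ) : ℝ))) * w ‖y‖ =
      SS k * ∫⁻ q in Ioi (0:ℝ), ENNReal.ofReal (q ^ (k + 2)) *
        (ENNReal.ofReal ((max ‖x‖ q ^ (k + 1))⁻¹) * w q) := by
  have hF : Measurable (fun p : ℝ × ℝ => (fun a r : ℝ =>
      ENNReal.ofReal ((‖x‖ ^ 2 + r ^ 2 - 2 * a) ^ (-((k + 1 : ℕ) : ℝ) / 2)) * w r) p.1 p.2) := by
    have a1 : Measurable (fun p : ℝ × ℝ => w p.2) := hw.comp measurable_snd
    exact (ENNReal.measurable_ofReal.comp (Measurable.pow_const (by fun_prop) _)).mul a1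
  have h1 := zonal' x (F := fun a r : ℝ =>
      ENNReal.ofReal ((‖x‖ ^ 2 + r ^ 2 - 2 * a) ^ (-((k + 1 : ℕ) : ℝ) / 2)) * w r) hF
  have h2 : ∫⁻ y : E (k + 3), ENNReal.ofReal (‖x - y‖ ^ (2 - ((k + 3 : ℕ) : ℝ))) * w ‖y‖ =
      ∫⁻ y : E (k + 3), (fun a r : ℝ =>
      ENNReal.ofReal ((‖x‖ ^ 2 + r ^ 2 - 2 * a) ^ (-((k + 1 : ℕ) : ℝ) / 2)) * w r)
        (inner ℝ x y) ‖y‖ := by
    apply lintegral_congr
    intro y
    simp only
    rw [kernel]
  rw [h2, h1, SS, mul_assoc]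
  congr 1
  rw [← lintegral_const_mul']
  swap
  · exact ENNReal.ofReal_ne_top
  have hae : ∀ᵐ q : ℝ ∂(volume.restrict (Ioi (0:ℝ))), ‖x‖ ≠ q := by
    apply ae_restrict_of_ae
    rw [ae_iff]
    simp
  apply lintegral_congr_ae
  filter_upwards [hae, ae_restrict_mem measurableSet_Ioi] with q hne hq
  rw [lintegral_const_mul' _ _ ENNReal.ofReal_ne_top]
  have h3 : ∀ θ : ℝ, ENNReal.ofReal (Real.sin θ ^ (k + 1)) *
      (ENNReal.ofReal ((‖x‖ ^ 2 + q ^ 2 - 2 * (‖x‖ * (q * Real.cos θ))) ^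
        (-((k + 1 : ℕ) : ℝ) / 2)) * w q) = (ENNReal.ofReal (Real.sin θ ^ (k + 1)) *
      ENNReal.ofReal ((‖x‖ ^ 2 + q ^ 2 - 2 * (‖x‖ * (q * Real.cos θ))) ^
        (-((k + 1 : ℕ) : ℝ) / 2))) * w q := fun θ => (mul_assoc _ _ _).symm
  simp_rw [h3]
  rw [lintegral_mul_const, ang_l k (norm_nonneg x) hq hne]
  · ring
  · have a1 : Measurable fun θ : ℝ => ENNReal.ofReal (Real.sin θ ^ (k + 1)) := by fun_prop
    exact a1.mul (ENNReal.measurable_ofReal.comp (Measurable.pow_const (by fun_prop) _))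

theorem vol_w (k : ℕ) {w : ℝ → ℝ≥0∞} (hw : Measurable w) :
    ∫⁻ y : E (k + 3), w ‖y‖ = SS k * ∫⁻ q in Ioi (0:ℝ), ENNReal.ofReal (q ^ (k + 2)) * w q := by
  have hF : Measurable (fun p : ℝ × ℝ => (fun _ r : ℝ => w r) p.1 p.2) := hw.comp measurable_snd
  have h1 := zonal (k := k) (F := fun _ r : ℝ => w r) hF
  rw [h1, SS, mul_assoc]
  congr 1
  rw [← lintegral_const_mul' _ _ ENNReal.ofReal_ne_top]
  apply lintegral_congr
  intro q
  rw [lintegral_const_mul' _ _ ENNReal.ofReal_ne_top, lintegral_mul_const, sin_l]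
  · ring
  · fun_prop

lemma ind_int {R : ℝ} (hR : 0 ≤ R) {f : ℝ → ℝ} (hf : ContinuousOn f (Icc 0 R))
    (h0 : ∀ q ∈ Ioo 0 R, 0 ≤ f q) :
    ∫⁻ q in Ioi (0:ℝ), ENNReal.ofReal (f q) * (Iio R).indicator 1 q =
      ENNReal.ofReal (∫ q in (0:ℝ)..R, f q) := by
  rw [intervalIntegral.integral_of_le hR, integral_Ioc_eq_integral_Ioo,
    ofReal_integral_eq_lintegral_ofReal]
  · rw [← lintegral_indicator measurableSet_Ioi, ← lintegral_indicator measurableSet_Ioo]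
    apply lintegral_congr
    intro q
    by_cases h1 : 0 < q
    · rw [indicator_of_mem (show q ∈ Ioi (0:ℝ) from h1)]
      by_cases h2 : q < R
      · rw [indicator_of_mem (show q ∈ Iio R from h2), indicator_of_mem (show q ∈ Ioo 0 R from ⟨h1, h2⟩)]
        simp
      · rw [indicator_of_notMem (show q ∉ Iio R from h2),
          indicator_of_notMem (show q ∉ Ioo 0 R from fun h => h2 h.2), mul_zero]
    · rw [indicator_of_notMem (show q ∉ Ioi (0:ℝ) from h1),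
        indicator_of_notMem (show q ∉ Ioo 0 R from fun h => h1 h.1)]
  · exact hf.integrableOn_Icc.mono_set Ioo_subset_Icc_self
  · filter_upwards [ae_restrict_mem measurableSet_Ioo] with q hq
    exact h0 q hq

lemma ball_ind (n : ℕ) (R : ℝ) (f : E n → ℝ≥0∞) :
    ∫⁻ y in ball (0 : E n) R, f y = ∫⁻ y, f y * (Iio R).indicator 1 ‖y‖ := by
  rw [← lintegral_indicator measurableSet_ball]
  apply lintegral_congr
  intro y
  by_cases h : ‖y‖ < R
  · rw [indicator_of_mem (mem_ball_zero_iff.2 h), indicator_of_mem (show ‖y‖ ∈ Iio R from h)]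
    simp
  · rw [indicator_of_notMem (fun h' => h (mem_ball_zero_iff.1 h')),
      indicator_of_notMem (show ‖y‖ ∉ Iio R from h), mul_zero]

lemma ind_meas (R : ℝ) : Measurable ((Iio R).indicator (1 : ℝ → ℝ≥0∞)) :=
  measurable_one.indicator measurableSet_Iio

lemma pow_R (k : ℕ) (R : ℝ) : (R ^ (k + 2 + 1) - 0 ^ (k + 2 + 1)) / (((k + 2 : ℕ) : ℝ) + 1) =
    R ^ (k + 3) / (k + 3) := by
  have h1 : (0:ℝ) ^ (k + 2 + 1) = 0 := zero_pow (by omega)
  rw [h1, sub_zero]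
  push_cast
  congr 1
  ring

theorem vol_ball' (k : ℕ) {R : ℝ} (hR : 0 ≤ R) : volume (ball (0 : E (k + 3)) R) =
    SS k * ENNReal.ofReal (R ^ (k + 3) / (k + 3)) := by
  have h1 := ball_ind (k + 3) R (fun _ => 1)
  rw [setLIntegral_one] at h1
  rw [h1]
  simp only [one_mul]
  rw [vol_w k (ind_meas R), ind_int hR (by fun_prop) fun q hq => pow_nonneg hq.1.le _,
    integral_pow]
  congr 2
  rw [pow_R]

/-- the radial integral -/
noncomputable def PP (k : ℕ) (t R : ℝ) : ℝ := ∫ q in (0:ℝ)..R, q ^ (k + 2) * (max t q ^ (k + 1))⁻¹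

lemma PP_cont (k : ℕ) {t : ℝ} (ht : 0 ≤ t) (R : ℝ) :
    ContinuousOn (fun q : ℝ => q ^ (k + 2) * (max t q ^ (k + 1))⁻¹) (Icc 0 R) := by
  rcases ht.eq_or_lt with h | h
  · -- `t = 0`
    subst h
    have h1 : EqOn (fun q : ℝ => q ^ (k + 2) * (max 0 q ^ (k + 1))⁻¹) (fun q => q) (Icc 0 R) := by
      intro q hq
      simp only
      rw [max_eq_right hq.1]
      rcases hq.1.eq_or_lt with h2 | h2
      · subst h2; simp
      · field_simp
        ring
    exact continuousOn_id.congr h1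
  · apply Continuous.continuousOn
    apply (continuous_pow _).mul
    apply Continuous.inv₀ (by fun_prop)
    intro q
    have : 0 < max t q := lt_max_of_lt_left h
    positivity

theorem ball_pot' (k : ℕ) (x : E (k + 3)) {R : ℝ} (hR : 0 ≤ R) :
    ∫⁻ y in ball (0 : E (k + 3)) R, ENNReal.ofReal (‖x - y‖ ^ (2 - ((k + 3 : ℕ) : ℝ))) =
      SS k * ENNReal.ofReal (PP k ‖x‖ R) := by
  rw [ball_ind, pot_w k x (ind_meas R)]
  congr 1
  have h1 : ∀ q ∈ Ioi (0:ℝ), ENNReal.ofReal (q ^ (k + 2)) *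
      (ENNReal.ofReal ((max ‖x‖ q ^ (k + 1))⁻¹) * (Iio R).indicator 1 q) =
      ENNReal.ofReal (q ^ (k + 2) * (max ‖x‖ q ^ (k + 1))⁻¹) * (Iio R).indicator 1 q := by
    intro q hq
    rw [ENNReal.ofReal_mul (pow_nonneg (le_of_lt hq) _), mul_assoc]
  rw [setLIntegral_congr_fun measurableSet_Ioi h1, ind_int hR (PP_cont k (norm_nonneg x) R)]
  · rfl
  · intro q hq
    have : 0 ≤ max ‖x‖ q := le_max_of_le_left (norm_nonneg _)
    have := hq.1
    positivity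

lemma PP_out (k : ℕ) {t R : ℝ} (hR : 0 ≤ R) (h : R ≤ t) :
    PP k t R = (t ^ (k + 1))⁻¹ * (R ^ (k + 3) / (k + 3)) := by
  unfold PP
  have h1 : ∫ q in (0:ℝ)..R, q ^ (k + 2) * (max t q ^ (k + 1))⁻¹ =
      ∫ q in (0:ℝ)..R, q ^ (k + 2) * (t ^ (k + 1))⁻¹ := by
    apply intervalIntegral.integral_congr
    intro q hq
    rw [uIcc_of_le hR] at hq
    simp only
    rw [max_eq_left (hq.2.trans h)]
  rw [h1, intervalIntegral.integral_mul_const, integral_pow, pow_R]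
  ring

lemma PP_in (k : ℕ) {t R : ℝ} (ht : 0 ≤ t) (h : t ≤ R) :
    PP k t R = t ^ 2 / (k + 3) + (R ^ 2 - t ^ 2) / 2 := by
  have hR : 0 ≤ R := ht.trans h
  have hc := PP_cont k ht R
  have hi1 : IntervalIntegrable (fun q : ℝ => q ^ (k + 2) * (max t q ^ (k + 1))⁻¹) volume 0 t := by
    apply ContinuousOn.intervalIntegrable
    rw [uIcc_of_le ht]
    exact hc.mono (Icc_subset_Icc le_rfl h)
  have hi2 : IntervalIntegrable (fun q : ℝ => q ^ (k + 2) * (max t q ^ (k + 1))⁻¹) volume t R := by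
    apply ContinuousOn.intervalIntegrable
    rw [uIcc_of_le h]
    exact hc.mono (Icc_subset_Icc ht le_rfl)
  unfold PP
  rw [← intervalIntegral.integral_add_adjacent_intervals hi1 hi2]
  have h1 := PP_out k (t := t) ht le_rfl
  unfold PP at h1
  rw [h1]
  have h2 : ∫ q in t..R, q ^ (k + 2) * (max t q ^ (k + 1))⁻¹ = ∫ q in t..R, q := by
    apply intervalIntegral.integral_congr
    intro q hq
    rw [uIcc_of_le h] at hq
    simp only
    rw [max_eq_right hq.1]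
    rcases (ht.trans hq.1).eq_or_lt with h3 | h3
    · rw [← h3]; simp
    · field_simp
      ring
  rw [h2, integral_id]
  congr 1
  rcases ht.eq_or_lt with h3 | h3
  · rw [← h3]; simp
  · field_simp
    ring

end Pool.Agent.Y767.PB
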