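import Pool.Agent.Y767.PB.Pot

open MeasureTheory Metric Set Filter Topology
open scoped ENNReal

set_option autoImplicit false

namespace Pool.Agent.Y767.PB

lemma SS_ne_top (k : ℕ) : SS k ≠ ⊤ := by
  unfold SS ck
  apply ENNReal.mul_ne_top _ ENNReal.ofReal_ne_top
  exact ENNReal.mul_ne_top (ENNReal.natCast_ne_top _) measure_ball_lt_top.ne

lemma SS_ne_zero (k : ℕ) : SS k ≠ 0 := by
  unfold SS ck
  apply mul_ne_zero
  · apply mul_ne_zero
    · exact_mod_cast (by omega : k + 2 ≠ 0)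
    · exact (measure_ball_pos _ _ one_pos).ne'
  · exact (ENNReal.ofReal_pos.2 (Jm_pos k)).ne'

lemma unit_int (k : ℕ) : ∫⁻ q in Ioi (0:ℝ), ENNReal.ofReal (q ^ (k + 2)) * (Iio 1).indicator 1 q =
    ENNReal.ofReal ((1:ℝ) / (k + 3)) := by
  rw [ind_int zero_le_one (by fun_prop) fun q hq => pow_nonneg hq.1.le _, integral_pow, pow_R,
    one_pow]

/-- the function of the inner product and the norm used for the sphere -/
noncomputable def Fs (k : ℕ) (t a r : ℝ) : ℝ≥0∞ :=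
  ENNReal.ofReal ((t ^ 2 + 1 ^ 2 - 2 * (a / r)) ^ (-((k + 1 : ℕ) : ℝ) / 2)) * (Iio 1).indicator 1 r

lemma Fs_meas (k : ℕ) (t : ℝ) : Measurable (fun p : ℝ × ℝ => Fs k t p.1 p.2) := by
  unfold Fs
  have a1 : Measurable (fun p : ℝ × ℝ => (Iio (1:ℝ)).indicator (1 : ℝ → ℝ≥0∞) p.2) :=
    (ind_meas 1).comp measurable_snd
  exact (ENNReal.measurable_ofReal.comp (Measurable.pow_const (by fun_prop) _)).mul a1

lemma side1 (k : ℕ) (x : E (k + 3)) (hx : ‖x‖ ≠ 1) :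
    ∫⁻ y : E (k + 3), Fs k ‖x‖ (inner ℝ x y) ‖y‖ =
      SS k * ENNReal.ofReal ((max ‖x‖ 1 ^ (k + 1))⁻¹) * ENNReal.ofReal ((1:ℝ) / (k + 3)) := by
  rw [zonal' x (Fs_meas k ‖x‖), ← unit_int k]
  have h1 : ∀ q ∈ Ioi (0:ℝ), ∫⁻ θ in Ioo 0 Real.pi, ENNReal.ofReal (q ^ (k + 2)) *
        (ENNReal.ofReal (Real.sin θ ^ (k + 1)) * Fs k ‖x‖ (‖x‖ * (q * Real.cos θ)) q) =
      (ENNReal.ofReal ((max ‖x‖ 1 ^ (k + 1))⁻¹) * ENNReal.ofReal (Jm k)) *
        (ENNReal.ofReal (q ^ (k + 2)) * (Iio 1).indicator 1 q) := by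
    intro q hq
    have hq' : (0:ℝ) < q := hq
    rw [lintegral_const_mul' _ _ ENNReal.ofReal_ne_top]
    have h3 : ∀ θ : ℝ, ENNReal.ofReal (Real.sin θ ^ (k + 1)) *
        Fs k ‖x‖ (‖x‖ * (q * Real.cos θ)) q = (ENNReal.ofReal (Real.sin θ ^ (k + 1)) *
        ENNReal.ofReal ((‖x‖ ^ 2 + 1 ^ 2 - 2 * (‖x‖ * (1 * Real.cos θ))) ^
          (-((k + 1 : ℕ) : ℝ) / 2))) * (Iio 1).indicator 1 q := by
      intro θ
      have : ‖x‖ * (q * Real.cos θ) / q = ‖x‖ * (1 * Real.cos θ) := by field_simp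
      rw [Fs, this, mul_assoc]
    simp_rw [h3]
    rw [lintegral_mul_const, ang_l k (norm_nonneg x) one_pos hx]
    · ring
    · have a1 : Measurable fun θ : ℝ => ENNReal.ofReal (Real.sin θ ^ (k + 1)) := by fun_prop
      exact a1.mul (ENNReal.measurable_ofReal.comp (Measurable.pow_const (by fun_prop) _))
  rw [setLIntegral_congr_fun measurableSet_Ioi h1, lintegral_const_mul']
  · rw [SS]; ring
  · exact ENNReal.mul_ne_top ENNReal.ofReal_ne_top ENNReal.ofReal_ne_top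

lemma side2 (k : ℕ) (x : E (k + 3)) :
    ∫⁻ y : E (k + 3), Fs k ‖x‖ (inner ℝ x y) ‖y‖ =
      (∫⁻ ω : sphere (0 : E (k + 3)) 1, ENNReal.ofReal (‖x - ω‖ ^ (2 - ((k + 3 : ℕ) : ℝ)))
        ∂((volume : Measure (E (k + 3))).toSphere)) * ENNReal.ofReal ((1:ℝ) / (k + 3)) := by
  have e1 : ∫⁻ z : E (k + 3), Fs k ‖x‖ (inner ℝ x z) ‖z‖ =
      ∫⁻ z : ({(0 : E (k + 3))}ᶜ : Set (E (k + 3))), Fs k ‖x‖ (inner ℝ x z.1) ‖z.1‖
        ∂((volume : Measure (E (k + 3))).comap (↑)) := by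
    rw [lintegral_subtype_comap (measurableSet_singleton _).compl
      (fun z : E (k + 3) => Fs k ‖x‖ (inner ℝ x z) ‖z‖), restrict_compl_singleton]
  rw [e1]
  have e2 := (volume : Measure (E (k + 3))).measurePreserving_homeomorphUnitSphereProd.lintegral_comp_emb
    (Homeomorph.measurableEmbedding _) (fun p : sphere (0 : E (k + 3)) 1 × Ioi (0 : ℝ) =>
      ENNReal.ofReal (‖x - p.1‖ ^ (2 - ((k + 3 : ℕ) : ℝ))) *
        (Iio (1:ℝ)).indicator (1 : ℝ → ℝ≥0∞) p.2)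
  have e3 : ∀ z : ({(0 : E (k + 3))}ᶜ : Set (E (k + 3))),
      (fun p : sphere (0 : E (k + 3)) 1 × Ioi (0 : ℝ) =>
      ENNReal.ofReal (‖x - p.1‖ ^ (2 - ((k + 3 : ℕ) : ℝ))) *
        (Iio (1:ℝ)).indicator (1 : ℝ → ℝ≥0∞) p.2) (homeomorphUnitSphereProd _ z) =
      Fs k ‖x‖ (inner ℝ x z.1) ‖z.1‖ := by
    intro z
    have hz : ‖z.1‖ ≠ 0 := norm_ne_zero_iff.2 z.2
    simp only
    rw [homeomorphUnitSphereProd_apply_snd_coe, homeomorphUnitSphereProd_apply_fst_coe, kernel,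
      norm_smul, norm_inv, norm_norm, inv_mul_cancel₀ hz, inner_smul_right, Fs]
    congr 4
    rw [div_eq_inv_mul]
  have e4 := lintegral_prod_mul
    (μ := (volume : Measure (E (k + 3))).toSphere)
    (ν := Measure.volumeIoiPow (Module.finrank ℝ (E (k + 3)) - 1))
    (f := fun ω : sphere (0 : E (k + 3)) 1 => ENNReal.ofReal (‖x - ω‖ ^ (2 - ((k + 3 : ℕ) : ℝ))))
    (g := fun r : Ioi (0:ℝ) => (Iio (1:ℝ)).indicator (1 : ℝ → ℝ≥0∞) r)
    (by
      apply Measurable.aemeasurable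
      exact ENNReal.measurable_ofReal.comp (Measurable.pow_const (by fun_prop) _))
    ((ind_meas 1).comp measurable_subtype_coe).aemeasurable
  rw [← lintegral_congr e3, e2, e4]
  · congr 1
    have hd : Module.finrank ℝ (E (k + 3)) = k + 2 + 1 := by simp
    rw [hd, Nat.add_sub_cancel]
    unfold Measure.volumeIoiPow
    rw [lintegral_withDensity_eq_lintegral_mul _ (by fun_prop)]
    · have := lintegral_subtype_comap (μ := (volume : Measure ℝ)) measurableSet_Ioi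
        (fun r : ℝ => ENNReal.ofReal (r ^ (k + 2)) * (Iio (1:ℝ)).indicator (1 : ℝ → ℝ≥0∞) r)
        (s := Ioi (0 : ℝ))
      rw [← unit_int k, ← this]
      rfl
    · exact (ind_meas 1).comp measurable_subtype_coe

theorem sph_l (k : ℕ) (x : E (k + 3)) (hx : ‖x‖ ≠ 1) :
    ∫⁻ ω : sphere (0 : E (k + 3)) 1, ENNReal.ofReal (‖x - ω‖ ^ (2 - ((k + 3 : ℕ) : ℝ)))
        ∂((volume : Measure (E (k + 3))).toSphere) =
      SS k * ENNReal.ofReal ((max ‖x‖ 1 ^ (k + 1))⁻¹) := by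
  have h := (side2 k x).symm.trans (side1 k x hx)
  have hp : (0:ℝ) < 1 / (k + 3) := by positivity
  exact (ENNReal.mul_left_inj (ENNReal.ofReal_pos.2 hp).ne' ENNReal.ofReal_ne_top).1 h

theorem sph_univ (k : ℕ) : (volume : Measure (E (k + 3))).toSphere univ = SS k := by
  rw [Measure.toSphere_apply_univ, vol_ball' k zero_le_one]
  have hd : Module.finrank ℝ (E (k + 3)) = k + 3 := by simp
  rw [hd, one_pow, mul_left_comm]
  have : ((k + 3 : ℕ) : ℝ≥0∞) * ENNReal.ofReal (1 / (k + 3)) = 1 := by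
    rw [← ENNReal.ofReal_natCast, ← ENNReal.ofReal_mul (by positivity)]
    push_cast
    rw [mul_one_div_cancel (by positivity), ENNReal.ofReal_one]
  rw [this, mul_one]

/-- the mean over the unit sphere -/
theorem sph_mean (k : ℕ) (x : E (k + 3)) (hx : ‖x‖ ≠ 1) :
    (⨍ y : sphere (0 : E (k + 3)) 1, ‖x - (y : E (k + 3))‖ ^ (2 - ((k + 3 : ℕ):ℝ))
      ∂((volume : Measure (E (k + 3))).toSphere)) = (max ‖x‖ 1 ^ (k + 1))⁻¹ := by
  have hm : 0 < max ‖x‖ 1 := lt_max_of_lt_right one_pos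
  have hS : 0 < (SS k).toReal := ENNReal.toReal_pos (SS_ne_zero k) (SS_ne_top k)
  rw [average_eq, measureReal_def, sph_univ, integral_eq_lintegral_of_nonneg_ae, sph_l k x hx,
    ENNReal.toReal_mul, ENNReal.toReal_ofReal (by positivity), smul_eq_mul]
  · field_simp
  · exact Eventually.of_forall fun y => Real.rpow_nonneg (norm_nonneg _) _
  · apply Measurable.aestronglyMeasurable
    exact Measurable.pow_const (by fun_prop) _

theorem ball_pot (k : ℕ) (x : E (k + 3)) {R : ℝ} (hR : 0 ≤ R) :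
    ∫ y in ball (0 : E (k + 3)) R, ‖x - y‖ ^ (2 - ((k + 3 : ℕ) : ℝ)) =
      (SS k).toReal * PP k ‖x‖ R := by
  have hP : 0 ≤ PP k ‖x‖ R := by
    unfold PP
    apply intervalIntegral.integral_nonneg hR
    intro q hq
    have : 0 ≤ max ‖x‖ q := le_max_of_le_left (norm_nonneg _)
    have := hq.1
    positivity
  rw [integral_eq_lintegral_of_nonneg_ae, ball_pot' k x hR, ENNReal.toReal_mul,
    ENNReal.toReal_ofReal hP]
  · exact Eventually.of_forall fun y => Real.rpow_nonneg (norm_nonneg _) _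
  · apply Measurable.aestronglyMeasurable
    exact Measurable.pow_const (by fun_prop) _

end Pool.Agent.Y767.PB
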