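import Mathlib

/-! The lemmas `cn`, `peel`, `radial` are copied from `Pool.Agent.Helper749.Bi.SphLaw`. -/

open MeasureTheory Metric Set Filter Topology
open scoped ENNReal

set_option autoImplicit false

namespace Pool.Agent.Y767.PB

/-- Euclidean space -/
abbrev E (n : ℕ) : Type := EuclideanSpace ℝ (Fin n)

variable {m : ℕ}

/-- prepend a coordinate -/
noncomputable def cn (s : ℝ) (z : E m) : E (m + 1) :=
  WithLp.toLp 2 (Fin.cons s z.ofLp : Fin (m + 1) → ℝ)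

@[simp] theorem cn_zero (s : ℝ) (z : E m) : (cn s z) 0 = s := rfl

@[simp] theorem cn_succ (s : ℝ) (z : E m) (i : Fin m) : (cn s z) i.succ = z i := rfl

theorem cn_norm_sq (s : ℝ) (z : E m) : ‖cn s z‖ ^ 2 = s ^ 2 + ‖z‖ ^ 2 := by
  rw [EuclideanSpace.real_norm_sq_eq, EuclideanSpace.real_norm_sq_eq, Fin.sum_univ_succ]
  simp

theorem peel {f : E (m + 1) → ℝ≥0∞} (hf : Measurable f) :
    ∫⁻ x, f x = ∫⁻ s : ℝ, ∫⁻ z : E m, f (cn s z) := by
  have h1 := (PiLp.volume_preserving_toLp (Fin (m + 1))).lintegral_comp hf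
  rw [← h1]
  have h2 := (volume_preserving_piFinSuccAbove (fun _ : Fin (m + 1) => ℝ) 0).symm
  have hf2 : Measurable (fun y : Fin (m + 1) → ℝ => f (WithLp.toLp 2 y)) :=
    hf.comp (PiLp.volume_preserving_toLp (Fin (m + 1))).measurable
  rw [← h2.lintegral_comp hf2]
  have hf3 := hf2.comp h2.measurable
  change ∫⁻ p, ((fun y : Fin (m + 1) → ℝ => f (WithLp.toLp 2 y)) ∘
    (MeasurableEquiv.piFinSuccAbove (fun _ : Fin (m + 1) => ℝ) 0).symm) p ∂(volume.prod volume) = _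
  rw [lintegral_prod _ hf3.aemeasurable]
  apply lintegral_congr
  intro s
  have hf4 : Measurable (fun w : Fin m → ℝ => ((fun y : Fin (m + 1) → ℝ => f (WithLp.toLp 2 y)) ∘
    (MeasurableEquiv.piFinSuccAbove (fun _ : Fin (m + 1) => ℝ) 0).symm) (s, w)) :=
    hf3.comp (measurable_const.prodMk measurable_id)
  have h3 := (PiLp.volume_preserving_ofLp (Fin m)).lintegral_comp hf4
  rw [← h3]
  refine lintegral_congr fun z => ?_
  simp only [Function.comp_apply]
  congr 1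
  unfold cn
  congr 1
  change (Fin.insertNth (α := fun _ : Fin (m + 1) => ℝ) 0 s z.ofLp : Fin (m + 1) → ℝ) = _
  rw [Fin.insertNth_zero']

theorem radial {k : ℕ} {h : ℝ → ℝ≥0∞} (hh : Measurable h) :
    ∫⁻ z : E (k + 1), h ‖z‖ = ((k + 1 : ℕ) * volume (ball (0 : E (k + 1)) 1)) *
      ∫⁻ r in Ioi (0 : ℝ), ENNReal.ofReal (r ^ k) * h r := by
  have e1 : ∫⁻ z : E (k + 1), h ‖z‖ =
      ∫⁻ z : ({(0 : E (k + 1))}ᶜ : Set (E (k + 1))), h ‖z.1‖ ∂((volume : Measure (E (k + 1))).comap (↑)) := by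
    rw [lintegral_subtype_comap (measurableSet_singleton _).compl (fun z : E (k + 1) => h ‖z‖),
      restrict_compl_singleton]
  rw [e1]
  have e2 := (volume : Measure (E (k + 1))).measurePreserving_homeomorphUnitSphereProd.lintegral_comp_emb
    (Homeomorph.measurableEmbedding _) (h ∘ Subtype.val ∘ Prod.snd)
  simp only [Function.comp_def, homeomorphUnitSphereProd_apply_snd_coe] at e2
  rw [e2]
  have hm : Measurable (fun x : Ioi (0 : ℝ) => h x) := hh.comp measurable_subtype_coe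
  have hm2 : Measurable (fun b : sphere (0 : E (k + 1)) 1 × Ioi (0 : ℝ) => h b.2) :=
    hm.comp measurable_snd
  rw [lintegral_prod _ hm2.aemeasurable]
  simp only [lintegral_const]
  rw [Measure.toSphere_apply_univ, mul_comm]
  have hd : Module.finrank ℝ (E (k + 1)) = k + 1 := by simp
  rw [hd]
  congr 1
  simp only [Nat.add_sub_cancel]
  unfold Measure.volumeIoiPow
  rw [lintegral_withDensity_eq_lintegral_mul _ (by fun_prop) hm]
  have := lintegral_subtype_comap (μ := (volume : Measure ℝ)) measurableSet_Ioi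
    (fun r : ℝ => ENNReal.ofReal (r ^ k) * h r) (s := Ioi (0 : ℝ))
  rw [← this]
  rfl



/-- indicator of the positive numbers -/
noncomputable def chp (s : ℝ) : ℝ≥0∞ := (Ioi (0 : ℝ)).indicator (fun _ => 1) s

theorem chp_meas : Measurable chp := measurable_const.indicator measurableSet_Ioi

theorem chp_pos {s : ℝ} (h : 0 < s) : chp s = 1 := indicator_of_mem (show s ∈ Ioi 0 from h) _

theorem chp_nonpos {s : ℝ} (h : s ≤ 0) : chp s = 0 :=
  indicator_of_notMem (show s ∉ Ioi 0 from not_lt.2 h) _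

theorem half (G : ℝ → ℝ≥0∞) :
    ∫⁻ θ in Ioo (-Real.pi) Real.pi, chp (Real.sin θ) * G θ = ∫⁻ θ in Ioo 0 Real.pi, G θ := by
  rw [← lintegral_indicator measurableSet_Ioo, ← lintegral_indicator measurableSet_Ioo]
  apply lintegral_congr_ae
  have h0 : ∀ᵐ θ : ℝ, θ ≠ 0 := by
    rw [ae_iff]; simp
  filter_upwards [h0] with θ hθ
  by_cases h1 : θ ∈ Ioo (-Real.pi) Real.pi
  · rw [indicator_of_mem h1]
    by_cases h2 : 0 < θ
    · have h3 : θ ∈ Ioo 0 Real.pi := ⟨h2, h1.2⟩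
      rw [indicator_of_mem h3, chp_pos (Real.sin_pos_of_mem_Ioo h3), one_mul]
    · have h3 : θ ∉ Ioo 0 Real.pi := fun h => h2 h.1
      rw [indicator_of_notMem h3,
        chp_nonpos (Real.sin_nonpos_of_nonpos_of_neg_pi_le (by linarith) h1.1.le), zero_mul]
  · have h3 : θ ∉ Ioo 0 Real.pi := fun h => h1 ⟨by linarith [h.1, Real.pi_pos], h.2⟩
    rw [indicator_of_notMem h1, indicator_of_notMem h3]

/-- the constant of the zonal formula -/
noncomputable def ck (k : ℕ) : ℝ≥0∞ := (k + 2 : ℕ) * volume (ball (0 : E (k + 2)) 1)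

/-- the zonal formula: `y ↦ (y₀, |y|)` -/
theorem zonal {k : ℕ} {F : ℝ → ℝ → ℝ≥0∞} (hF : Measurable (fun p : ℝ × ℝ => F p.1 p.2)) :
    ∫⁻ y : E (k + 3), F (y 0) ‖y‖ = ck k *
      ∫⁻ q in Ioi (0 : ℝ), ∫⁻ θ in Ioo 0 Real.pi, ENNReal.ofReal (q ^ (k + 2)) *
        (ENNReal.ofReal (Real.sin θ ^ (k + 1)) * F (q * Real.cos θ) q) := by
  have hmeas : Measurable (fun y : E (k + 2 + 1) => F (y 0) ‖y‖) := by
    have h1 : Measurable (fun y : E (k + 2 + 1) => ((y 0 : ℝ), ‖y‖)) := by fun_prop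
    exact hF.comp h1
  have h0 := peel (m := k + 2) hmeas
  have h1 : ∀ s : ℝ, ∫⁻ z : E (k + 2), F ((cn s z) 0) ‖cn s z‖ = ck k *
      ∫⁻ ρ : ℝ, chp ρ * (ENNReal.ofReal (ρ ^ (k + 1)) * F s (√(s ^ 2 + ρ ^ 2))) := by
    intro s
    have h2 : ∀ z : E (k + 2), F ((cn s z) 0) ‖cn s z‖ =
        (fun r : ℝ => F s (√(s ^ 2 + r ^ 2))) ‖z‖ := by
      intro z
      rw [cn_zero]
      simp only
      congr 1
      rw [← cn_norm_sq, Real.sqrt_sq (norm_nonneg _)]
    simp_rw [h2]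
    have hm : Measurable (fun r : ℝ => F s (√(s ^ 2 + r ^ 2))) :=
      hF.comp (measurable_const.prodMk (by fun_prop))
    have h3 := radial (k := k + 1) hm
    refine h3.trans ?_
    unfold ck
    congr 1
    rw [← lintegral_indicator measurableSet_Ioi]
    apply lintegral_congr
    intro ρ
    by_cases hρ : 0 < ρ
    · rw [indicator_of_mem (show ρ ∈ Ioi (0:ℝ) from hρ), chp_pos hρ, one_mul]
    · rw [indicator_of_notMem (show ρ ∉ Ioi (0:ℝ) from hρ), chp_nonpos (not_lt.1 hρ), zero_mul]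
  have hm : Measurable (fun p : ℝ × ℝ => chp p.2 * (ENNReal.ofReal (p.2 ^ (k + 1)) *
      F p.1 (√(p.1 ^ 2 + p.2 ^ 2)))) := by
    have a1 : Measurable (fun p : ℝ × ℝ => chp p.2) := chp_meas.comp measurable_snd
    have a2 : Measurable (fun p : ℝ × ℝ => F p.1 (√(p.1 ^ 2 + p.2 ^ 2))) :=
      hF.comp (measurable_fst.prodMk (by fun_prop : Measurable fun p : ℝ × ℝ => √(p.1 ^ 2 + p.2 ^ 2)))
    exact a1.mul ((by fun_prop : Measurable fun p : ℝ × ℝ => ENNReal.ofReal (p.2 ^ (k + 1))).mul a2)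
  rw [h0, lintegral_congr h1, lintegral_const_mul]
  swap
  · exact hm.lintegral_prod_right'
  congr 1
  have e1 := lintegral_prod (μ := (volume : Measure ℝ)) (ν := (volume : Measure ℝ)) _ hm.aemeasurable
  simp only at e1
  rw [← e1]
  change ∫⁻ p : ℝ × ℝ, _ = _
  rw [← lintegral_comp_polarCoord_symm]
  have e2 : (polarCoord.target : Set (ℝ × ℝ)) = Ioi 0 ×ˢ Ioo (-Real.pi) Real.pi := rfl
  rw [e2]
  have e3 : ∀ p ∈ (Ioi (0:ℝ) ×ˢ Ioo (-Real.pi) Real.pi : Set (ℝ × ℝ)),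
      ENNReal.ofReal p.1 • (fun p : ℝ × ℝ => chp p.2 * (ENNReal.ofReal (p.2 ^ (k + 1)) *
      F p.1 (√(p.1 ^ 2 + p.2 ^ 2)))) (polarCoord.symm p) =
      ENNReal.ofReal (p.1 ^ (k + 2)) * (chp (Real.sin p.2) * (ENNReal.ofReal
        (Real.sin p.2 ^ (k + 1)) * F (p.1 * Real.cos p.2) p.1)) := by
    rintro ⟨q, θ⟩ ⟨hq, hθ⟩
    simp only [mem_Ioi] at hq
    simp only [polarCoord_symm_apply]
    have a1 : (q * Real.cos θ) ^ 2 + (q * Real.sin θ) ^ 2 = q ^ 2 := by
      have := Real.sin_sq_add_cos_sq θ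
      calc (q * Real.cos θ) ^ 2 + (q * Real.sin θ) ^ 2
          = q ^ 2 * (Real.sin θ ^ 2 + Real.cos θ ^ 2) := by ring
        _ = q ^ 2 := by rw [this, mul_one]
    rw [a1, Real.sqrt_sq hq.le]
    by_cases hs : 0 < Real.sin θ
    · rw [chp_pos (mul_pos hq hs), chp_pos hs, one_mul, one_mul, smul_eq_mul, mul_pow,
        ENNReal.ofReal_mul (by positivity : 0 ≤ q ^ (k + 1)), pow_succ q (k + 1),
        ENNReal.ofReal_mul (by positivity : 0 ≤ q ^ (k + 1))]
      ring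
    · push Not at hs
      rw [chp_nonpos (mul_nonpos_of_nonneg_of_nonpos hq.le hs), chp_nonpos hs]
      simp
  rw [setLIntegral_congr_fun (measurableSet_Ioi.prod measurableSet_Ioo) e3]
  have e4 : (volume : Measure (ℝ × ℝ)).restrict (Ioi 0 ×ˢ Ioo (-Real.pi) Real.pi) =
      (volume.restrict (Ioi 0)).prod (volume.restrict (Ioo (-Real.pi) Real.pi)) := by
    rw [Measure.prod_restrict]; rfl
  have hm3 : Measurable (fun p : ℝ × ℝ => ENNReal.ofReal (p.1 ^ (k + 2)) * (chp (Real.sin p.2) *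
      (ENNReal.ofReal (Real.sin p.2 ^ (k + 1)) * F (p.1 * Real.cos p.2) p.1))) := by
    have a1 : Measurable (fun p : ℝ × ℝ => chp (Real.sin p.2)) := chp_meas.comp (by fun_prop)
    have a2 : Measurable (fun p : ℝ × ℝ => F (p.1 * Real.cos p.2) p.1) :=
      hF.comp (Measurable.prodMk (by fun_prop) measurable_fst)
    have a3 : Measurable (fun p : ℝ × ℝ => ENNReal.ofReal (Real.sin p.2 ^ (k + 1))) := by fun_prop
    have a4 : Measurable (fun p : ℝ × ℝ => ENNReal.ofReal (p.1 ^ (k + 2))) := by fun_prop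
    exact a4.mul (a1.mul (a3.mul a2))
  rw [e4, lintegral_prod _ hm3.aemeasurable]
  apply lintegral_congr
  intro q
  simp only
  rw [lintegral_const_mul', lintegral_const_mul']
  · rw [half]
  · exact ENNReal.ofReal_ne_top
  · exact ENNReal.ofReal_ne_top

/-- invariance: the same for `y ↦ (⟨x, y⟩, |y|)` -/
theorem zonal' {k : ℕ} (x : E (k + 3)) {F : ℝ → ℝ → ℝ≥0∞}
    (hF : Measurable (fun p : ℝ × ℝ => F p.1 p.2)) :
    ∫⁻ y : E (k + 3), F (inner ℝ x y) ‖y‖ = ck k *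
      ∫⁻ q in Ioi (0 : ℝ), ∫⁻ θ in Ioo 0 Real.pi, ENNReal.ofReal (q ^ (k + 2)) *
        (ENNReal.ofReal (Real.sin θ ^ (k + 1)) * F (‖x‖ * (q * Real.cos θ)) q) := by
  obtain ⟨L, hL⟩ : ∃ L : E (k + 3) ≃ₗᵢ[ℝ] E (k + 3),
      L x = ‖x‖ • EuclideanSpace.single (0 : Fin (k + 3)) (1 : ℝ) := by
    refine ⟨(ℝ ∙ (x - ‖x‖ • EuclideanSpace.single (0 : Fin (k + 3)) (1 : ℝ)))ᗮ.reflection, ?_⟩
    apply Submodule.reflection_sub
    rw [norm_smul]
    simp
  have h1 : ∀ y : E (k + 3), (inner ℝ x y : ℝ) = ‖x‖ * (L y) 0 := by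
    intro y
    rw [← L.inner_map_map x y, hL, inner_smul_left, EuclideanSpace.inner_single_left]
    simp
  have hF2 : Measurable (fun p : ℝ × ℝ => (fun a r => F (‖x‖ * a) r) p.1 p.2) :=
    hF.comp (Measurable.prodMk (by fun_prop) measurable_snd)
  have h2 := zonal (k := k) (F := fun a r => F (‖x‖ * a) r) hF2
  rw [← h2]
  have hmeas : Measurable (fun y : E (k + 3) => F (‖x‖ * (y 0)) ‖y‖) := by
    have h1 : Measurable (fun y : E (k + 3) => ((y 0 : ℝ), ‖y‖)) := by fun_prop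
    exact hF2.comp h1
  have h3 := (L.measurePreserving).lintegral_comp hmeas
  rw [← h3]
  apply lintegral_congr
  intro y
  rw [h1, L.norm_map]

end Pool.Agent.Y767.PB
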